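import Pool.Agent.TH908.SPL.Level

set_option autoImplicit false

/-!
# Splaying is competitive for request sequences with few distinct keys

For every binary search tree `T` and every request sequence `X` of keys of `T` with `d` distinct
requested keys, splaying costs at most `8 log₂ d + 4` times as much as every execution, for trees
of any size and sequences of any length, without an additive term. So the dynamic optimality
conjecture for splay trees holds for all sequences with a bounded number of distinct keys.

Proof. Call a node active if there is a requested key in its subtree. Every execution costs at
least the number of nodes which are active in `T`, since each rotation makes at most one node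
inactive. Give the requested keys levels `0, ..., log₂ d` such that between two keys of equal level
there is one of a smaller level, and take as the level of a node the least level in its subtree,
or `log₂ d + 1` if the node is inactive. The sum of `log₂ d + 1` minus the levels of the nodes is
a potential for which the zig-zig and zig-zag steps are paid for by the growth of the level of the
requested key: the nodes which become inactive pay as well, and the nodes without requested keys
need no weights.
-/

namespace Pool.Agent.Results.MP_c42954_lc.DistinctKeys

open Pool.Agent.H581R2.Splay Pool.Agent.TH908.SPL

/-- If `T` is a binary search tree, `X` a request sequence of keys of `T` with `d` distinct keys,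
and `c` the cost of an execution for `(X, T)`, then splaying `X` from `T` costs at most
`(8 ⌊log₂ d⌋ + 4) c`. -/
theorem result (T : Tr) (X : List ℕ) (c : ℕ) (hT : IsBST T) (hX : ∀ x ∈ X, x ∈ keys T)
    (h : Exec T X c) : costSplay T X ≤ (8 * Nat.log 2 X.toFinset.card + 4) * c := by
  have h1 := cost_distinct hT hX
  have h2 := act_le_exec h hT
  have h3 := length_le_exec h
  generalize Nat.log 2 X.toFinset.card = L at *
  calc costSplay T X ≤ (6 * L + 2) * X.length + (2 * L + 2) * act (fun k => k ∈ X) T := h1
    _ ≤ (6 * L + 2) * c + (2 * L + 2) * c := by gcongr
    _ = (8 * L + 4) * c := by ring

end Pool.Agent.Results.MP_c42954_lc.DistinctKeys
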