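import Pool.Agent.TH22.SP.Exec

set_option autoImplicit false

/-! Splaying against executions that contract one side of the requested key, lift it below recent
ancestors, or rotate near recently requested keys. -/

namespace Pool.Agent.Results.MP_c42954_lc.RecentKeys

open Pool.Agent.H581R2.Splay Pool.Agent.TH22.SP

/-- (1) Splaying costs at most six times as much as every execution in the sense of `Exec`, with
no additive term; (2) moving the requested key to the root is allowed there, free of charge. -/
theorem result :
    (∀ (T : Tr) (X : List ℕ) (c : ℕ), IsBST T → (∀ x ∈ X, x ∈ keys T) → Exec [] T X c →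
      costSplay T X ≤ 6 * c) ∧
    (∀ (x : ℕ) (H : List ℕ) (T : Tr), IsBST T → x ∈ keys T →
      Change (x :: H) T (toRoot x T) 0) :=
  ⟨fun _ _ _ hb hX h => splay_le_exec hb hX h, fun x H T hb hx => toRoot_change x H T hb hx⟩

end Pool.Agent.Results.MP_c42954_lc.RecentKeys
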