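import Pool.Agent.TH49.Spl.AA

set_option autoImplicit false

/-!
# Splay trees on request sequences shuffled inside windows

`Tr`, `keys`, `IsBST`, `dep`, `splay`, `costSplay` and the single rotation `Rot` are those of
`Pool.Agent.H581R2.SplayDef`; `Exec` (executions: a rotation anywhere costs one), `optAny` (the
offline optimum, with a free choice of the initial tree), `cat` and `shuf` are in
`Pool.Agent.TH49.Spl.Defs`.

The request sequence `cat B` consists of the windows `B 0, B 1, …, B (J - 1)`, each of length at
least `L`, where the number `n` of keys is at most `L ^ k`.  A tuple `σ` of permutations rearranges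
the entries of every window.  For all but a fraction `2 / M` of the tuples `σ` (`M` the number of
requests) the optimum for the rearranged sequence is, up to the factor `460 k` and the additive
term `n log₂ (2 n)`, at least the cost of splaying every rearrangement inside the windows.
-/

namespace Pool.Agent.Results.MP_c42954_lc.ShuffledWindows

open Pool.Agent.H581R2.Splay Pool.Agent.TH49.Spl

theorem result (k L J : ℕ) (hk : 1 ≤ k) (T : Tr) (hT : IsBST T) (h1 : 1 ≤ (keys T).length)
    (hn : (keys T).length ≤ L ^ k) (B : Fin J → List ℕ) (hB : ∀ j, ∀ x ∈ B j, x ∈ keys T)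
    (hL : ∀ j, L ≤ (B j).length) :
    (Nat.card {σ : (j : Fin J) → Equiv.Perm (Fin (B j).length) //
      ∃ σ₀ : (j : Fin J) → Equiv.Perm (Fin (B j).length),
        460 * k * (optAny (keys T) (cat (shuf B σ)) : ℝ) +
          (keys T).length * Real.logb 2 (2 * (keys T).length) <
            costSplay T (cat (shuf B σ₀))} : ℝ) * ((cat B).length : ℝ) ≤
      2 * (Nat.card ((j : Fin J) → Equiv.Perm (Fin (B j).length)) : ℝ) := by
  classical
  have h := almost_all hk hT h1 hn B hB hL
  have e : ((cat B).length : ℝ) = ∑ j, ((B j).length : ℝ) := by
    unfold cat
    rw [List.length_flatten, List.map_ofFn, List.sum_ofFn]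
    push_cast
    rfl
  rw [e, Nat.card_eq_fintype_card, Nat.card_eq_fintype_card]
  convert h using 4

end Pool.Agent.Results.MP_c42954_lc.ShuffledWindows
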