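import Pool.Agent.TH22.SP.Depth

set_option autoImplicit false

/-! The depth of a key in a splay tree and the distinct keys requested since its last request. -/

namespace Pool.Agent.Results.MP_c42954_lc.WorkingSetDepth

open Pool.Agent.H581R2.Splay Pool.Agent.TH22.SP

/-- Let `S` be the tree after splaying the requests in order, starting from any search tree `T`.
(1) After a request of `a` and further requests `Y`, the depth of `a` is at most twice the number
of distinct keys other than `a` in `Y`. (2) If `Y` is nonempty then at most `2 d - 1` nodes of the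
tree have a key of `Y` in their subtree, `d` the number of distinct keys in `Y`. (3) The bound (1)
is attained for every value of that number. (4) If each of the requests `Y` after `X` asks for one
of the `k` distinct keys requested last, then splaying serves `Y` at cost at most
`(2 k - 1) |Y|`. -/
theorem result :
    (∀ (T : Tr) (X Y : List ℕ) (a : ℕ), IsBST T → (∀ x ∈ X ++ a :: Y, x ∈ keys T) →
      dep a ((X ++ a :: Y).foldl (fun t x => splay x t) T) ≤ 2 * (Y.toFinset.erase a).card) ∧
    (∀ (T : Tr) (X Y : List ℕ), IsBST T → (∀ x ∈ X ++ Y, x ∈ keys T) → Y ≠ [] →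
      ancs Y.toFinset ((X ++ Y).foldl (fun t x => splay x t) T) + 1 ≤ 2 * Y.toFinset.card) ∧
    (∀ k : ℕ, ∃ (T : Tr) (a : ℕ) (Y : List ℕ), IsBST T ∧ (∀ x ∈ a :: Y, x ∈ keys T) ∧ a ∉ Y ∧
      Y.toFinset.card = k ∧ dep a ((a :: Y).foldl (fun t x => splay x t) T) = 2 * k) ∧
    (∀ (T : Tr) (X Y : List ℕ) (k : ℕ), IsBST T → (∀ x ∈ X ++ Y, x ∈ keys T) →
      (∀ P x R, Y = P ++ x :: R → ∃ n, x ∈ (X ++ P).reverse.take n ∧
        ((X ++ P).reverse.take n).toFinset.card ≤ k) →
      costSplay (X.foldl (fun t x => splay x t) T) Y ≤ (2 * k - 1) * Y.length) := by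
  refine ⟨?_, ?_, ?_, ?_⟩
  · intro T X Y a hb hX
    obtain ⟨h1, h2⟩ := state hb (X ++ a :: Y) hX
    have hb' : IsBST (after' T (X ++ a :: Y)) := by unfold IsBST; rw [h1]; exact hb
    have e : (X ++ a :: Y).reverse.take (Y.length + 1) = Y.reverse ++ [a] := by
      have e1 : (X ++ a :: Y).reverse = (Y.reverse ++ [a]) ++ X.reverse := by simp
      rw [e1, List.take_append_of_le_length (by simp), List.take_of_length_le (by simp)]
    have h3 := depth_bound h2 hb' (n := Y.length + 1) (a := a) (by rw [e]; simp)
      (by rw [h1]; exact hX a (by simp))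
    rw [e] at h3
    have e2 : (Y.reverse ++ [a]).toFinset = insert a (Y.toFinset.erase a) := by
      ext z
      simp only [List.mem_toFinset, List.mem_append, List.mem_reverse, List.mem_singleton,
        Finset.mem_insert, Finset.mem_erase]
      tauto
    rw [e2, Finset.card_insert_of_notMem (by simp)] at h3
    have h4 : dep a (after' T (X ++ a :: Y)) ≤ 2 * (Y.toFinset.erase a).card := by omega
    exact h4
  · intro T X Y hb hX hY
    obtain ⟨h1, h2⟩ := state hb (X ++ Y) hX
    have e : (X ++ Y).reverse.take Y.length = Y.reverse := by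
      rw [List.reverse_append, List.take_append_of_le_length (by simp),
        List.take_of_length_le (by simp)]
    obtain ⟨a, ha⟩ := List.exists_mem_of_ne_nil Y hY
    have h3 := clos_bound h2 (n := Y.length) (a := a) (by rw [e]; simp [ha])
    rw [e] at h3
    have e2 : Y.reverse.toFinset = Y.toFinset := by
      ext z
      simp
    rw [e2] at h3
    exact h3
  · intro k
    obtain ⟨T, a, X, h1, h2, h3, h4, h5⟩ := sharp k
    exact ⟨T, a, X, h1, h2, h3, h4, h5⟩
  · intro T X Y k hb hX hrec
    obtain ⟨h1, h2⟩ := state hb X (fun x hx => hX x (by simp [hx]))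
    have hb' : IsBST (after' T X) := by unfold IsBST; rw [h1]; exact hb
    exact cost_recent Y X.reverse (after' T X) hb' (fun x hx => by rw [h1]; exact hX x (by simp [hx]))
      h2 (by
        intro P x R he
        obtain ⟨n, q1, q2⟩ := hrec P x R he
        rw [List.reverse_append] at q1 q2
        exact ⟨n, q1, q2⟩)

end Pool.Agent.Results.MP_c42954_lc.WorkingSetDepth
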